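import Pool.Agent.H31.LocC5

open Finset

namespace Pool.Agent.Results.MP_18736b_co.CircWeight

/-- `f 0, …, f (k-1)` are the distinct vertices, in cyclic order, of a cycle `C_k` in `G`. -/
def IsCycle {V : Type} (G : SimpleGraph V) (k : ℕ) (f : ℕ → V) : Prop :=
  3 ≤ k ∧ Set.InjOn f (Set.Iio k) ∧ (∀ i, i + 1 < k → G.Adj (f i) (f (i + 1))) ∧
    G.Adj (f (k - 1)) (f 0)

/-- The largest length of a cycle of `G` through every vertex of `T`. -/
noncomputable def gamma {V : Type} (G : SimpleGraph V) (T : Finset V) : ℕ :=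
  sSup {k | ∃ f, IsCycle G k f ∧ ∀ x ∈ T, ∃ i < k, f i = x}

/-- The weight `c'_G(T)`. -/
noncomputable def weight {V : Type} (G : SimpleGraph V) (t : ℕ) (T : Finset V) : ℝ :=
  ((gamma G T).choose 2 : ℝ) / (gamma G T).choose t

/-- The graph induced on `B` is connected and has no cut vertex. -/
def NoCut {V : Type} (G : SimpleGraph V) (B : Set V) : Prop :=
  (G.induce B).Connected ∧ ∀ x ∈ B, (G.induce (B \ {x})).Preconnected

/-- Blocks, given by their vertex sets. -/
def IsBlock {V : Type} (G : SimpleGraph V) (B : Set V) : Prop := Maximal (NoCut G) B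

theorem result (V : Type) [Fintype V] [DecidableEq V] (G : SimpleGraph V) [DecidableRel G.Adj]
    (t : ℕ) (ht : 3 ≤ t) :
    ∑ T ∈ G.cliqueFinset t, weight G t T ≤ G.edgeFinset.card ∧
      (∑ T ∈ G.cliqueFinset t, weight G t T = G.edgeFinset.card ↔
        ∀ B, IsBlock G B → B.ncard = 1 ∨ (G.IsClique B ∧ t ≤ B.ncard)) := by
  have e : ∀ T, weight G t T = H31.LocC.cw t (H31.LocC.gam G T) := fun T => by
    have : gamma G T = H31.LocC.gam G T := by
      unfold gamma H31.LocC.gam
      congr 1; ext k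
      simp only [Set.mem_ofPred_eq, subset_iff, mem_image, mem_range]
      rfl
    rw [weight, this]; rfl
  simp only [e]
  obtain ⟨h1, h2⟩ := H31.LocC.main t ht _ G rfl
  have h3 := H31.LocC.Q_eq G t ht
  have h4 : ((H31.LocC.PS G univ).card : ℝ) / 2 = G.edgeFinset.card := by
    rw [H31.LocC.PS_card]; push_cast; ring
  rw [h4] at h1 h2 h3
  exact ⟨h1, (Iff.intro h2 h3).trans (H31.LocC.Q_iff G t ht)⟩

end Pool.Agent.Results.MP_18736b_co.CircWeight
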